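import Pool.Agent.Y687.N.Cls
import Pool.Agent.Y971.N.LVL2
import Pool.Agent.Y888.N.C1B
import Pool.Agent.Y275.N.C2
import Pool.Agent.Y17.N.Defs3

/-!
# The number of vectors of norm `n = 3 mod 8` as a half sum of the Jacobi symbol
-/

set_option autoImplicit false

namespace Pool.Agent.Y655.Z17N

open Finset
open Pool.Agent.Z700 (V3 vec)
open Pool.Agent.Y17.N

/-- reflection of a sum -/
theorem refl_sum {n : ℕ} (hn : Odd n) (f : ℕ → ℤ) (hf : f n = 0) :
    ∑ u ∈ range n, f u = ∑ u ∈ (range n).filter (fun u => 2 * u < n), (f u + f (n - u)) := by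
  classical
  rw [← sum_filter_add_sum_filter_not (range n) (fun u => 2 * u < n), sum_add_distrib]
  congr 1
  have h1 : ∑ u ∈ ((range n).filter (fun u => 2 * u < n)).erase 0, f (n - u) =
      ∑ u ∈ (range n).filter (fun u => 2 * u < n), f (n - u) := by
    refine sum_erase _ ?_
    rw [Nat.sub_zero, hf]
  rw [← h1]
  obtain ⟨k, hk⟩ := hn
  refine sum_nbij' (fun u => n - u) (fun u => n - u) ?_ ?_ ?_ ?_ ?_
  · intro u hu
    simp only [mem_filter, mem_range, mem_erase] at hu ⊢
    omega
  · intro u hu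
    simp only [mem_filter, mem_range, mem_erase] at hu ⊢
    omega
  · intro u hu
    simp only [mem_filter, mem_range] at hu
    show n - (n - u) = u
    omega
  · intro u hu
    simp only [mem_filter, mem_range, mem_erase] at hu
    show n - (n - u) = u
    omega
  · intro u hu
    simp only [mem_filter, mem_range] at hu
    have : n - (n - u) = u := by omega
    rw [this]

/-- splitting a sum by parity -/
theorem par_sum {n : ℕ} (hn : Odd n) (f : ℕ → ℤ) (hf : f n = 0) :
    ∑ u ∈ range n, f u = ∑ u ∈ (range n).filter (fun u => 2 * u < n), (f (2 * u) + f (n - 2 * u)) := by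
  classical
  rw [← sum_filter_add_sum_filter_not (range n) (fun u => u % 2 = 0), sum_add_distrib]
  obtain ⟨k, hk⟩ := hn
  congr 1
  · refine sum_nbij' (fun u => u / 2) (fun u => 2 * u) ?_ ?_ ?_ ?_ ?_
    · intro u hu
      simp only [mem_filter, mem_range] at hu ⊢
      omega
    · intro u hu
      simp only [mem_filter, mem_range] at hu ⊢
      omega
    · intro u hu
      simp only [mem_filter, mem_range] at hu
      show 2 * (u / 2) = u
      omega
    · intro u hu
      show 2 * u / 2 = u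
      omega
    · intro u hu
      simp only [mem_filter, mem_range] at hu
      have : 2 * (u / 2) = u := by omega
      rw [this]
  · have h1 : ∑ u ∈ ((range n).filter (fun u => 2 * u < n)).erase 0, f (n - 2 * u) =
        ∑ u ∈ (range n).filter (fun u => 2 * u < n), f (n - 2 * u) := by
      refine sum_erase _ ?_
      rw [Nat.mul_zero, Nat.sub_zero, hf]
    rw [← h1]
    refine sum_nbij' (fun u => (n - u) / 2) (fun u => n - 2 * u) ?_ ?_ ?_ ?_ ?_
    · intro u hu
      simp only [mem_filter, mem_range, mem_erase] at hu ⊢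
      omega
    · intro u hu
      simp only [mem_filter, mem_range, mem_erase] at hu ⊢
      omega
    · intro u hu
      simp only [mem_filter, mem_range] at hu
      show n - 2 * ((n - u) / 2) = u
      omega
    · intro u hu
      simp only [mem_filter, mem_range, mem_erase] at hu
      show (n - (n - 2 * u)) / 2 = u
      omega
    · intro u hu
      simp only [mem_filter, mem_range] at hu
      have : n - 2 * ((n - u) / 2) = u := by omega
      rw [this]

theorem jac_refl {n : ℕ} (h8 : n % 8 = 3) {v : ℕ} (hv : v ≤ n) :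
    jacobiSym ((n - v : ℕ) : ℤ) n = -jacobiSym (v : ℤ) n := by
  have hodd : Odd n := Nat.odd_iff.2 (by omega)
  have h1 : jacobiSym (-1) n = -1 := by
    rw [jacobiSym.at_neg_one hodd]
    exact ZMod.χ₄_nat_three_mod_four (by omega)
  have h2 : jacobiSym ((n - v : ℕ) : ℤ) n = jacobiSym ((-1) * (v : ℤ)) n := by
    rw [jacobiSym.mod_left, jacobiSym.mod_left ((-1) * (v : ℤ))]
    congr 1
    rw [Nat.cast_sub hv]
    have : (n : ℤ) - v = (-1) * v + n * 1 := by ring
    rw [this, Int.add_mul_emod_self_left]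
  rw [h2, jacobiSym.mul_left, h1]
  ring

theorem jac_two {n : ℕ} (h8 : n % 8 = 3) (v : ℕ) :
    jacobiSym ((2 * v : ℕ) : ℤ) n = -jacobiSym (v : ℤ) n := by
  have hodd : Odd n := Nat.odd_iff.2 (by omega)
  have h1 : jacobiSym 2 n = -1 := by
    rw [jacobiSym.at_two hodd, ZMod.χ₈_nat_mod_eight, h8]
    decide
  rw [Nat.cast_mul, jacobiSym.mul_left]
  rw [show ((2 : ℕ) : ℤ) = 2 by rfl, h1]
  ring

theorem jac_self {n : ℕ} (h8 : n % 8 = 3) : jacobiSym (n : ℤ) n = 0 := by
  have h1 := jac_refl h8 (v := 0) (Nat.zero_le n)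
  have h2 := jac_refl h8 (v := n) le_rfl
  rw [Nat.sub_self] at h2
  have h3 : jacobiSym ((0 : ℕ) : ℤ) n = 0 := by
    rw [Nat.cast_zero]
    exact jacobiSym.zero_left (by omega)
  rw [h3] at h2
  omega

/-- the sum of the values -/
theorem sum_chi {n : ℕ} (h8 : n % 8 = 3) : ∑ u ∈ range n, jacobiSym (u : ℤ) n = 0 := by
  have hodd : Odd n := Nat.odd_iff.2 (by omega)
  rw [refl_sum hodd (fun u => jacobiSym (u : ℤ) n) (jac_self h8)]
  refine sum_eq_zero fun u hu => ?_
  simp only [mem_filter, mem_range] at hu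
  rw [jac_refl h8 (by omega)]
  ring

/-- the first moment -/
theorem sum_uchi {n : ℕ} (h8 : n % 8 = 3) :
    3 * ∑ u ∈ range n, (u : ℤ) * jacobiSym (u : ℤ) n =
      -(n * ∑ u ∈ (range n).filter (fun u => 2 * u < n), jacobiSym (u : ℤ) n) := by
  have hodd : Odd n := Nat.odd_iff.2 (by omega)
  have h0 : ((n : ℕ) : ℤ) * jacobiSym (n : ℤ) n = 0 := by rw [jac_self h8, mul_zero]
  have e1 := refl_sum hodd (fun u => (u : ℤ) * jacobiSym (u : ℤ) n) h0
  have e2 := par_sum hodd (fun u => (u : ℤ) * jacobiSym (u : ℤ) n) h0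
  have f1 : ∑ u ∈ (range n).filter (fun u => 2 * u < n), ((u : ℤ) * jacobiSym (u : ℤ) n +
      ((n - u : ℕ) : ℤ) * jacobiSym ((n - u : ℕ) : ℤ) n) =
      2 * (∑ u ∈ (range n).filter (fun u => 2 * u < n), (u : ℤ) * jacobiSym (u : ℤ) n) -
      n * ∑ u ∈ (range n).filter (fun u => 2 * u < n), jacobiSym (u : ℤ) n := by
    rw [mul_sum, mul_sum, ← sum_sub_distrib]
    refine sum_congr rfl fun u hu => ?_
    simp only [mem_filter, mem_range] at hu
    rw [jac_refl h8 (by omega), Nat.cast_sub (by omega)]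
    ring
  have f2 : ∑ u ∈ (range n).filter (fun u => 2 * u < n), (((2 * u : ℕ) : ℤ) * jacobiSym ((2 * u : ℕ) : ℤ) n +
      ((n - 2 * u : ℕ) : ℤ) * jacobiSym ((n - 2 * u : ℕ) : ℤ) n) =
      n * (∑ u ∈ (range n).filter (fun u => 2 * u < n), jacobiSym (u : ℤ) n) -
      4 * ∑ u ∈ (range n).filter (fun u => 2 * u < n), (u : ℤ) * jacobiSym (u : ℤ) n := by
    rw [mul_sum, mul_sum, ← sum_sub_distrib]
    refine sum_congr rfl fun u hu => ?_
    simp only [mem_filter, mem_range] at hu
    rw [jac_refl h8 (by omega), jac_two h8, Nat.cast_sub (by omega)]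
    push_cast
    ring
  rw [f1] at e1
  rw [f2] at e2
  linarith

/-- **HALF**: the number of vectors of norm `n` -/
theorem t_HALF : S_HALF := by
  intro n hs h8
  have hG : Pool.Agent.Y687.N.Gn n := ⟨hs, h8⟩
  have h1 := Pool.Agent.Y687.N.card_eq Pool.Agent.Y971.N.t_LVL2 Pool.Agent.Y888.N.t_C1B
    Pool.Agent.Y275.N.t_C21 Pool.Agent.Y614.NEG.t_CARD hG
  have hn : (n : ℚ) ≠ 0 := by
    have : n ≠ 0 := by omega
    exact_mod_cast this
  have h2 : 2 * (n : ℚ) * Pool.Agent.Y687.N.HH n =
      ((∑ u ∈ range n, (2 * ((u : ℤ) * jacobiSym (u : ℤ) n) - n * jacobiSym (u : ℤ) n) : ℤ) : ℚ) := by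
    unfold Pool.Agent.Y687.N.HH
    rw [mul_sum]
    push_cast
    refine sum_congr rfl fun u hu => ?_
    have hu := mem_range.1 hu
    unfold Pool.Agent.Y687.saw
    by_cases hd : (n : ℤ) ∣ (u : ℤ)
    · rw [if_pos hd]
      have hu0 : u = 0 := Nat.eq_zero_of_dvd_of_lt (by exact_mod_cast hd) hu
      subst hu0
      rw [Nat.cast_zero, jacobiSym.zero_left (by omega)]
      simp
    · rw [if_neg hd, Int.emod_eq_of_lt (by positivity) (by exact_mod_cast hu)]
      push_cast
      field_simp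
  rw [sum_sub_distrib, ← mul_sum, ← mul_sum, sum_chi h8] at h2
  have h3 := congrArg (fun z : ℤ => (z : ℚ)) (sum_uchi h8)
  have h4 : ((vec n).card : ℚ) =
      ((8 * ∑ u ∈ (range n).filter (fun u => 2 * u < n), jacobiSym (u : ℤ) n : ℤ) : ℚ) := by
    rw [h1]
    refine mul_left_cancel₀ hn ?_
    push_cast at h2 h3 ⊢
    linear_combination (-12) * h2 - 8 * h3
  exact_mod_cast h4

end Pool.Agent.Y655.Z17N
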