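import Pool.Agent.Z419.Bil1
import Pool.Agent.Y17.N.Defs3

/-!
# All vectors of norm `N` and the vectors on one line modulo seven
-/

set_option autoImplicit false

namespace Pool.Agent.Y655.Z17N

open Finset Matrix
open Pool.Agent.Z700 (V3 vec Ln n0 ep sgl)
open Pool.Agent.Y17.N

/-! ### all vectors and the vectors on one line -/

/-- existence of the line of a vector -/
theorem ex_line {N : ℤ} {β : ZMod 7} (hβ : β ≠ 0) (hb : β ^ 2 = -(N : ZMod 7)) {v : V3}
    (hv : v ⬝ᵥ v = N) : ∃ n : Fin 3 → ZMod 7, n ≠ 0 ∧ Ln n β v := by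
  have hN : (N : ZMod 7) = (v 0 : ZMod 7) * v 0 + (v 1 : ZMod 7) * v 1 + (v 2 : ZMod 7) * v 2 := by
    rw [← hv, Pool.Agent.Z419.dot_cast]
  unfold Ln
  generalize (v 0 : ZMod 7) = a at *
  generalize (v 1 : ZMod 7) = b at *
  generalize (v 2 : ZMod 7) = c at *
  rw [hN] at hb
  by_cases h0 : a * a + β ^ 2 = 0
  · by_cases h1 : b * b + β ^ 2 = 0
    · refine ⟨![a * c + β * b, b * c - β * a, c * c + β ^ 2], ?_, ?_, ?_, ?_⟩
      · intro h
        have h2 : c * c + β ^ 2 = 0 := congrFun h 2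
        have h3 : 2 * β ^ 2 = 0 := by linear_combination h0 + h1 + h2 - hb
        rcases mul_eq_zero.1 h3 with h4 | h4
        · exact absurd h4 (by decide)
        · exact hβ (pow_eq_zero_iff (by norm_num) |>.1 h4)
      · simp
        ring
      · simp
        ring
      · simp
        linear_combination (-(β)) * hb
    · refine ⟨![a * b - β * c, b * b + β ^ 2, c * b + β * a], ?_, ?_, ?_, ?_⟩
      · intro h
        exact h1 (congrFun h 1)
      · simp
        ring
      · simp
        linear_combination (-(β)) * hb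
      · simp
        ring
  · refine ⟨![a * a + β ^ 2, b * a + β * c, c * a - β * b], ?_, ?_, ?_, ?_⟩
    · intro h
      exact h0 (congrFun h 0)
    · simp
      linear_combination (-(β)) * hb
    · simp
      ring
    · simp
      ring

/-- the six vectors on the line of a vector -/
theorem six_line {N : ℤ} {β : ZMod 7} (hβ : β ≠ 0) (hb : β ^ 2 = -(N : ZMod 7)) {v : V3}
    (hv : v ⬝ᵥ v = N) :
    (univ.filter fun n : Fin 3 → ZMod 7 => n ≠ 0 ∧ Ln n β v).card = 6 := by
  have hne : ((v ⬝ᵥ v : ℤ) : ZMod 7) ≠ 0 := by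
    rw [hv]
    intro h
    rw [h, neg_zero] at hb
    exact hβ (pow_eq_zero_iff (by norm_num) |>.1 hb)
  have h := Pool.Agent.Z419.six β β v v hβ hne 1
  obtain ⟨n, h1, h2⟩ := ex_line hβ hb hv
  rw [if_pos ⟨n, h1, h2, h2⟩, ← sum_filter, sum_const, nsmul_eq_mul, mul_one, mul_one] at h
  have h3 : (univ.filter fun n : Fin 3 → ZMod 7 => n ≠ 0 ∧ Ln n β v) =
      univ.filter fun n : Fin 3 → ZMod 7 => n ≠ 0 ∧ Ln n β v ∧ Ln n β v := by
    refine filter_congr fun n _ => ?_
    tauto
  rw [h3]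
  exact_mod_cast h

/-- the number of vectors on one line -/
theorem on_line (h : S_ORI) {N : ℤ} (hN : N % 8 = 3) {β : ZMod 7} (hβ : β ≠ 0)
    {n : Fin 3 → ZMod 7} (hn : n ≠ 0) (hi : n 0 ^ 2 + n 1 ^ 2 + n 2 ^ 2 = 0) :
    (((vec N).filter fun v => Ln n β v).card : ℤ) = t0 N β := by
  have h1 := h N hN β hβ n hn hi 1 (Or.inl rfl)
  have h2 := h N hN β hβ n hn hi (-1) (Or.inr rfl)
  have h3 : ((vec N).filter fun v => Ln n β v).card =
      ((vec N).filter fun v => Ln n β v ∧ ep v = 1).card +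
      ((vec N).filter fun v => Ln n β v ∧ ep v = -1).card := by
    rw [← card_filter_add_card_filter_not (s := (vec N).filter fun v => Ln n β v)
      (fun v => ep v = 1), filter_filter, filter_filter]
    congr 2
    refine filter_congr fun v _ => ?_
    have h4 := Pool.Agent.Z419.ep_cases v
    constructor
    · rintro ⟨a, b⟩
      exact ⟨a, h4.resolve_left b⟩
    · rintro ⟨a, b⟩
      refine ⟨a, ?_⟩
      rw [b]
      decide
  rw [h3]
  push_cast
  linarith

/-- **T8** -/
theorem t_T8 (h : S_ORI) : S_T8 := by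
  classical
  intro N hN β hβ hb
  have h1 : ∑ v ∈ vec N, (univ.filter fun n : Fin 3 → ZMod 7 => n ≠ 0 ∧ Ln n β v).card =
      6 * (vec N).card := by
    have h6 : ∀ v ∈ vec N, (univ.filter fun n : Fin 3 → ZMod 7 => n ≠ 0 ∧ Ln n β v).card = 6 :=
      fun v hv => six_line hβ hb (mem_filter.1 hv).2
    rw [sum_congr rfl h6, sum_const, smul_eq_mul, mul_comm]
  have h2 : ∑ v ∈ vec N, ((univ.filter fun n : Fin 3 → ZMod 7 => n ≠ 0 ∧ Ln n β v).card : ℤ) =
      ∑ n ∈ univ.filter (fun n : Fin 3 → ZMod 7 => n ≠ 0 ∧ n 0 ^ 2 + n 1 ^ 2 + n 2 ^ 2 = 0),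
        (((vec N).filter fun v => Ln n β v).card : ℤ) := by
    simp only [card_filter]
    push_cast
    rw [sum_comm, sum_filter]
    refine sum_congr rfl fun n _ => ?_
    by_cases hn : n = 0
    · rw [if_neg (fun h => h.1 hn)]
      refine sum_eq_zero fun v _ => ?_
      rw [if_neg (fun h => h.1 hn)]
    · by_cases hi : n 0 ^ 2 + n 1 ^ 2 + n 2 ^ 2 = 0
      · rw [if_pos ⟨hn, hi⟩]
        refine sum_congr rfl fun v _ => ?_
        simp only [ne_eq, hn, not_false_eq_true, true_and]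
      · rw [if_neg (fun h => hi h.2)]
        refine sum_eq_zero fun v _ => ?_
        rw [if_neg (fun h => hi (Pool.Agent.Z419.iso_of_ln hβ h.2))]
  rw [sum_congr rfl (fun n hn => on_line h hN hβ (mem_filter.1 hn).2.1 (mem_filter.1 hn).2.2),
    sum_const, Pool.Agent.Z419.card48, nsmul_eq_mul] at h2
  have h3 : ((6 * (vec N).card : ℕ) : ℤ) = 48 * t0 N β := by
    rw [← h1]
    push_cast
    rw [h2]
    norm_num
  push_cast at h3
  linarith

end Pool.Agent.Y655.Z17N
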